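import Mathlib
import Pool.Agent.H96.ET.Main2

set_option autoImplicit false

open Set MeasureTheory
open scoped ContDiff

namespace Pool.Agent.Results.MP_9a1d29_gt.GeneratingFunction

/-- The standard symplectic form as a continuous bilinear map (proof tool only). -/
theorem exists_om (n : ℕ) : ∃ om : ((Fin n → ℝ) × (Fin n → ℝ)) →L[ℝ]
    ((Fin n → ℝ) × (Fin n → ℝ)) →L[ℝ] ℝ,
    ∀ u v, om u v = ∑ i, (u.1 i * v.2 i - u.2 i * v.1 i) := by
  let B : ((Fin n → ℝ) × (Fin n → ℝ)) →ₗ[ℝ] ((Fin n → ℝ) × (Fin n → ℝ)) →ₗ[ℝ] ℝ :=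
    LinearMap.mk₂ ℝ (fun u v => ∑ i, (u.1 i * v.2 i - u.2 i * v.1 i))
      (by
        intro u u' v
        rw [← Finset.sum_add_distrib]
        refine Finset.sum_congr rfl fun i _ => ?_
        simp only [Prod.fst_add, Prod.snd_add, Pi.add_apply]
        ring)
      (by
        intro c u v
        rw [smul_eq_mul, Finset.mul_sum]
        refine Finset.sum_congr rfl fun i _ => ?_
        simp only [Prod.smul_fst, Prod.smul_snd, Pi.smul_apply, smul_eq_mul]
        ring)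
      (by
        intro u v v'
        rw [← Finset.sum_add_distrib]
        refine Finset.sum_congr rfl fun i _ => ?_
        simp only [Prod.fst_add, Prod.snd_add, Pi.add_apply]
        ring)
      (by
        intro c u v
        rw [smul_eq_mul, Finset.mul_sum]
        refine Finset.sum_congr rfl fun i _ => ?_
        simp only [Prod.smul_fst, Prod.smul_snd, Pi.smul_apply, smul_eq_mul]
        ring)
  refine ⟨LinearMap.toContinuousLinearMap
    ((LinearMap.toContinuousLinearMap : (((Fin n → ℝ) × (Fin n → ℝ)) →ₗ[ℝ] ℝ) ≃ₗ[ℝ] _).toLinearMap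
      ∘ₗ B), fun u v => rfl⟩

/-- The standard symplectic form of `ℝ²ⁿ`. -/
def form (n : ℕ) (u v : (Fin n → ℝ) × (Fin n → ℝ)) : ℝ :=
  ∑ i, (u.1 i * v.2 i - u.2 i * v.1 i)

/-- The lattice vector with integer coordinates `(a, b)`. -/
def lat (n : ℕ) (a b : Fin n → ℤ) : (Fin n → ℝ) × (Fin n → ℝ) :=
  ((fun i => (a i : ℝ)), (fun i => (b i : ℝ)))

/-- `ψ` is a lift of an exact symplectomorphism of the torus: smooth, symplectic, commuting with
the integer translations, with mean displacement zero. -/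
def IsExactSymp (n : ℕ) (ψ : (Fin n → ℝ) × (Fin n → ℝ) → (Fin n → ℝ) × (Fin n → ℝ)) : Prop :=
  (∀ m : ℕ, ContDiff ℝ m ψ) ∧
  (∀ w u v, form n (fderiv ℝ ψ w u) (fderiv ℝ ψ w v) = form n u v) ∧
  (∀ a b w, ψ (w + lat n a b) = ψ w + lat n a b) ∧
  (∫ w in Set.Icc (0 : (Fin n → ℝ) × (Fin n → ℝ)) 1, (ψ w - w)) = 0

/-- `ψ` is the time-one map of the flow of a smooth Hamiltonian which is periodic in space. -/
def IsHamiltonian (n : ℕ) (ψ : (Fin n → ℝ) × (Fin n → ℝ) → (Fin n → ℝ) × (Fin n → ℝ)) : Prop :=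
  ∃ (H : ℝ × ((Fin n → ℝ) × (Fin n → ℝ)) → ℝ)
    (Ψ : ℝ → (Fin n → ℝ) × (Fin n → ℝ) → (Fin n → ℝ) × (Fin n → ℝ)),
    (∀ m : ℕ, ContDiff ℝ m H) ∧
    (∀ a b t x, H (t, x + lat n a b) = H (t, x)) ∧
    (∀ w, Ψ 0 w = w) ∧
    (∀ t w, DifferentiableAt ℝ (fun s => Ψ s w) t ∧
      ∀ v, form n (deriv (fun s => Ψ s w) t) v = fderiv ℝ (fun x => H (t, x)) (Ψ t w) v) ∧
    (∀ w, Ψ 1 w = ψ w)

theorem result (n : ℕ) (ψ : (Fin n → ℝ) × (Fin n → ℝ) → (Fin n → ℝ) × (Fin n → ℝ))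
    (hψE : IsExactSymp n ψ)
    (γ : ℝ → ℝ) (hγ : ∀ m : ℕ, ContDiff ℝ m γ) (hγ0 : γ 0 = 0) (hγ1 : γ 1 = 1)
    (g : ℝ × ((Fin n → ℝ) × (Fin n → ℝ)) → ℝ) (hg : ∀ m : ℕ, ContDiff ℝ m g)
    (hg0 : ∀ x, g (0, x) = 0)
    (q : ℝ × ((Fin n → ℝ) × (Fin n → ℝ)) → (Fin n → ℝ) × (Fin n → ℝ))
    (hq : ∀ s x v, form n (q (s, x)) v = γ s / 2 * form n x v + fderiv ℝ (fun y => g (s, y)) x v)
    (hZ : ∀ s : ℝ, 0 ≤ s → s ≤ 1 → ∀ w v,
      fderiv ℝ (fun z => z + q (s, ψ z - z)) w v = 0 → v = 0)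
    (φ : (Fin n → ℝ) × (Fin n → ℝ) → (Fin n → ℝ) × (Fin n → ℝ)) (hφ : IsHamiltonian n φ) :
    IsHamiltonian n (fun w => ψ (φ w)) := by
  obtain ⟨hψ, hsymp, hper, hmean⟩ := hψE
  classical
  obtain ⟨om, hom⟩ := exists_om n
  have hψ' : ContDiff ℝ ∞ ψ := contDiff_infty.mpr hψ
  have hg' : ContDiff ℝ ∞ g := contDiff_infty.mpr hg
  -- the lattice
  let bas : Module.Basis (Fin n ⊕ Fin n) ℝ ((Fin n → ℝ) × (Fin n → ℝ)) :=
    (Pi.basisFun ℝ (Fin n)).prod (Pi.basisFun ℝ (Fin n))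
  have hinl : ∀ x i, bas.repr x (Sum.inl i) = x.1 i := by
    intro x i
    simp [bas]
  have hinr : ∀ x i, bas.repr x (Sum.inr i) = x.2 i := by
    intro x i
    simp [bas]
  have hL : ∀ k ∈ Submodule.span ℤ (Set.range bas), ∃ a b : Fin n → ℤ,
      k = ((fun i => (a i : ℝ)), (fun i => (b i : ℝ))) := by
    intro k hk
    rw [Module.Basis.mem_span_iff_repr_mem (R := ℤ)] at hk
    choose c hc using hk
    refine ⟨fun i => c (Sum.inl i), fun i => c (Sum.inr i), ?_⟩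
    ext i
    · rw [← hinl, ← hc (Sum.inl i)]
      simp
    · rw [← hinr, ← hc (Sum.inr i)]
      simp
  have hL' : ∀ a b : Fin n → ℤ, (((fun i => (a i : ℝ)), (fun i => (b i : ℝ))) :
      (Fin n → ℝ) × (Fin n → ℝ)) ∈ Submodule.span ℤ (Set.range bas) := by
    intro a b
    rw [Module.Basis.mem_span_iff_repr_mem (R := ℤ)]
    rintro (i | i)
    · rw [hinl]
      exact ⟨a i, by simp⟩
    · rw [hinr]
      exact ⟨b i, by simp⟩
  have hHaar : (volume : Measure ((Fin n → ℝ) × (Fin n → ℝ))).IsAddHaarMeasure :=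
    MeasureTheory.Measure.prod.instIsAddHaarMeasure _ _
  have hbox : (ZSpan.fundamentalDomain bas : Set ((Fin n → ℝ) × (Fin n → ℝ)))
      =ᵐ[volume] Set.Icc (0 : (Fin n → ℝ) × (Fin n → ℝ)) 1 := by
    have h1 := ZSpan.fundamentalDomain_ae_parallelepiped bas volume
    have h2 : parallelepiped bas = Set.Icc (0 : (Fin n → ℝ) × (Fin n → ℝ)) 1 := by
      rw [parallelepiped_basis_eq]
      ext x
      simp only [Set.mem_setOf_eq, Set.mem_Icc, Prod.le_def, Pi.le_def, Sum.forall, hinl, hinr]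
      constructor
      · rintro ⟨h3, h4⟩
        exact ⟨⟨fun i => (h3 i).1, fun i => (h4 i).1⟩, ⟨fun i => (h3 i).2, fun i => (h4 i).2⟩⟩
      · rintro ⟨⟨h3, h4⟩, ⟨h5, h6⟩⟩
        exact ⟨fun i => ⟨h3 i, h5 i⟩, fun i => ⟨h4 i, h6 i⟩⟩
    rwa [h2] at h1
  obtain ⟨H, Ψ, Φ, hHc, hΨc, hΦc, hΦΨ, hΨΦ, hΦper, hT, hHper, hΨ0, hHam, hΨ1⟩ := H96.ET.main2 (μ := volume) om
    (by
      intro a b
      rw [hom, hom, ← Finset.sum_neg_distrib]
      refine Finset.sum_congr rfl fun i _ => ?_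
      ring)
    (by
      intro a ha
      ext i
      · have h1 := ha ((0 : Fin n → ℝ), (Pi.single i 1 : Fin n → ℝ))
        rw [hom] at h1
        simpa [Pi.single_apply] using h1
      · have h1 := ha ((Pi.single i 1 : Fin n → ℝ), (0 : Fin n → ℝ))
        rw [hom] at h1
        simpa [Pi.single_apply] using h1)
    (Submodule.span ℤ (Set.range bas)) (ZSpan.fundamentalDomain bas)
    (ZSpan.fundamentalDomain_measurableSet bas) (ZSpan.fundamentalDomain_isBounded bas)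
    (ZSpan.isAddFundamentalDomain bas volume)
    (by
      intro x
      obtain ⟨k, hk, -⟩ := ZSpan.exist_unique_vadd_mem_fundamentalDomain bas x
      exact ⟨k, k.2, hk⟩)
    (ZSpan.measure_fundamentalDomain_ne_zero bas)
    ψ hψ'
    (by
      intro w a b
      rw [hom, hom]
      exact hsymp w a b)
    (by
      intro k hk w
      obtain ⟨a, b, rfl⟩ := hL k hk
      have h0 := hper a b w
      simp only [lat] at h0
      rw [add_comm, h0, add_comm])
    (by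
      intro k _
      rw [setIntegral_congr_set hbox]
      have hint : Integrable (fun w => ψ w - w)
          (volume.restrict (Set.Icc (0 : (Fin n → ℝ) × (Fin n → ℝ)) 1)) :=
        (hψ'.continuous.sub continuous_id).continuousOn.integrableOn_compact isCompact_Icc
      have h1 := (om.flip k).integral_comp_comm hint
      simp only [ContinuousLinearMap.flip_apply] at h1
      rw [h1, hmean]
      simp)
    γ (contDiff_infty.mpr hγ) hγ0 hγ1 g hg' hg0 q
    (by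
      intro s x b
      rw [hom, hom]
      have h0 := hq s x b
      simp only [form] at h0
      rw [h0]
      have h1 : HasFDerivAt (fun y => g (s, y))
          ((fderiv ℝ g (s, x)).comp (ContinuousLinearMap.inr ℝ ℝ
            ((Fin n → ℝ) × (Fin n → ℝ)))) x :=
        (hg'.differentiable (by simp) (s, x)).hasFDerivAt.comp x (hasFDerivAt_prodMk_right s x)
      rw [h1.fderiv]
      rfl)
    (by
      intro s hs w b hb
      exact hZ s hs.1 hs.2 w b hb)
  obtain ⟨H', Ψ', hH'c, hH'per, hΨ'0, hHam', hΨ'1⟩ := hφ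
  obtain ⟨K, Θ, hKc, hKper, hΘ0, hHamK, hΘ1⟩ := H96.ET.compose om
    (Submodule.span ℤ (Set.range bas)) H Ψ Φ hHc hΨc hΦc hΦΨ hΨΦ hΦper hT hHper hΨ0 hHam
    H' (fun p => Ψ' p.1 p.2) (contDiff_infty.mpr hH'c)
    (by
      intro k hk t x
      obtain ⟨a, b, rfl⟩ := hL k hk
      rw [add_comm]
      exact hH'per a b t x)
    hΨ'0
    (by
      intro t w
      obtain ⟨h1, h2⟩ := hHam' t w
      refine ⟨_, h1.hasDerivAt, fun b => ?_⟩
      rw [hom]
      exact h2 b)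
  refine ⟨K, fun t w => Θ (t, w), fun m => hKc.of_le (by exact_mod_cast le_top), ?_, hΘ0, ?_, ?_⟩
  · intro a b t x
    rw [add_comm]
    exact hKper _ (hL' a b) t x
  · intro t w
    obtain ⟨X, hX, hXv⟩ := hHamK t w
    refine ⟨hX.differentiableAt, fun v => ?_⟩
    rw [hX.deriv, ← hXv, hom]
    rfl
  · intro w
    show Θ (1, w) = ψ (φ w)
    rw [hΘ1, hΨ1]
    simp only
    rw [hΨ'1]

end Pool.Agent.Results.MP_9a1d29_gt.GeneratingFunction
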